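import Mathlib
import Pool.Agent.X250.Ham.Base

/-!
# Listing sequences for generating sets with two normalising elements, and for all
# conjugation-closed generating sets of all finite groups

Let `G` be a finite group and `A` a symmetric generating set. An element `x` normalises `A` if
`x⁻¹ A x = A`.

1. If at least two elements `≠ 1` of `A` normalise `A` (more generally, if this is true for some
   symmetric generating subset `B` of `A`) then there is a listing sequence of elements of `A`
   whose product is `1`. So the Cayley graph is Hamiltonian if `|G| ≥ 3`.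
2. This is the case if `A` is closed under conjugation, for **every** finite group `G`.

The proof. Let `H` be the subgroup generated by a normalising element of order at least three or by
two normalising involutions. It has a Hamiltonian cycle (with steps in `A`), and normalises `A`.
The graph of the left cosets of `H` (neighbours: cosets joined by an edge of the Cayley graph) is
connected and vertex transitive. If `P = g H` and `Q = g a H` are adjacent cosets (`a ∈ A`), then the
left multiplication by `b = g a g⁻¹` maps `P` to `Q`, joins each `p ∈ P` to a neighbour of `p` (as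
`p⁻¹ b p` is a conjugate of `a` by an element of `H`), and maps the Hamiltonian cycle of `P` to one of
`Q`; so the two cycles can be merged at any edge of `P`. A connected vertex transitive graph of
degree `d` has edge connectivity `d` (Mader), so it is `1`-tough, so it has a spanning connected
subgraph of maximal degree at most three (Win; here proved by the method of Ellingham and Zha); as
`|H| ≥ 3` all merges along such a subgraph can be done at different edges.
-/

namespace Pool.Agent.Results.MP_688fd0_co.NormalisingPair

open Equiv Equiv.Perm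

/-- The sequence `a_1, ..., a_n` (here `a 0, ..., a (n-1)`) is *listing*: the partial products
`a_1 ⋯ a_k`, `1 ≤ k ≤ n`, are pairwise distinct. -/
def IsListing {G : Type*} [Group G] {n : ℕ} (a : Fin n → G) : Prop :=
  Function.Injective (fun k : Fin n => ((List.ofFn a).take (k.val + 1)).prod)

/-- There is a listing sequence `a_1, ..., a_n` (`n = |G|`) of elements of `A` with
`a_1 ⋯ a_n = 1`. -/
def HasClosedListing {G : Type*} [Group G] (A : Set G) : Prop :=
  ∃ a : Fin (Nat.card G) → G, (∀ i, a i ∈ A) ∧ IsListing a ∧ (List.ofFn a).prod = 1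

/-- `A` is a symmetric generating set. -/
structure IsSymmGen {G : Type*} [Group G] (A : Set G) : Prop where
  symmetric : ∀ x ∈ A, x⁻¹ ∈ A
  generates : Subgroup.closure A = ⊤

/-- The element `x` normalises the set `A`. -/
def Normalises {G : Type*} [Group G] (x : G) (A : Set G) : Prop :=
  ∀ a, a ∈ A ↔ x⁻¹ * a * x ∈ A

/-- From a transitive permutation to a listing sequence. -/
lemma listing_of_perm {G : Type*} [Group G] [Finite G] {A : Set G}
    (h : ∃ σ : Perm G, (∀ x, x⁻¹ * σ x ∈ A) ∧ ∀ x y, σ.SameCycle x y) : HasClosedListing A := by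
  obtain ⟨σ, h1, h2⟩ := h
  have hex : ∃ m : ℕ, 0 < m ∧ (σ ^ m) (1 : G) = 1 :=
    ⟨orderOf σ, orderOf_pos σ, by rw [pow_orderOf_eq_one]; rfl⟩
  obtain ⟨p, ⟨hp0, hp1⟩, hmin⟩ : ∃ m : ℕ, (0 < m ∧ (σ ^ m) (1 : G) = 1) ∧
      ∀ j, j < m → ¬ (0 < j ∧ (σ ^ j) (1 : G) = 1) := by
    classical
    exact ⟨Nat.find hex, Nat.find_spec hex, fun j hj => Nat.find_min hex hj⟩
  have hne : ∀ i j, i < j → j < i + p → (σ ^ i) (1 : G) ≠ (σ ^ j) 1 := by
    intro i j hij hj heq
    refine hmin (j - i) (by omega) ⟨by omega, ?_⟩
    have h3 : (σ ^ j) (1 : G) = (σ ^ i) ((σ ^ (j - i)) 1) := by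
      rw [← Perm.mul_apply, ← pow_add]
      congr 2
      omega
    rw [h3] at heq
    exact ((σ ^ i).injective heq).symm
  have hmod : ∀ n : ℕ, (σ ^ n) (1 : G) = (σ ^ (n % p)) 1 := by
    intro n
    conv_lhs => rw [← Nat.mod_add_div n p, pow_add, pow_mul]
    rw [Perm.mul_apply]
    have : ∀ t : ℕ, ((σ ^ p) ^ t) (1 : G) = 1 := by
      intro t
      induction t with
      | zero => rfl
      | succ t iht => rw [pow_succ, Perm.mul_apply, hp1, iht]
    rw [this]
  have hcard : Nat.card G = p := by
    have hbij : Function.Bijective (fun k : Fin p => (σ ^ k.val) (1 : G)) := by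
      constructor
      · intro i j hij
        rcases lt_trichotomy i.val j.val with h | h | h
        · exact absurd hij (hne _ _ h (by omega))
        · exact Fin.ext h
        · exact absurd hij.symm (hne _ _ h (by omega))
      · intro g
        obtain ⟨n, hn⟩ := (h2 1 g).exists_nat_pow_eq
        refine ⟨⟨n % p, Nat.mod_lt _ hp0⟩, ?_⟩
        show (σ ^ (n % p)) 1 = g
        rw [← hmod, hn]
    have := Nat.card_eq_of_bijective _ hbij
    rw [Nat.card_fin] at this
    exact this.symm
  unfold HasClosedListing
  rw [hcard]
  set a : Fin p → G := fun k => ((σ ^ k.val) 1)⁻¹ * (σ ^ (k.val + 1)) 1 with ha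
  have hprod : ∀ m, m ≤ p → ((List.ofFn a).take m).prod = (σ ^ m) 1 := by
    intro m
    induction m with
    | zero => intro _; simp
    | succ m ih =>
      intro hm
      have hlt : m < (List.ofFn a).length := by rw [List.length_ofFn]; omega
      rw [List.take_add_one, List.getElem?_eq_getElem hlt, List.prod_append, ih (by omega)]
      simp [ha]
  refine ⟨a, ?_, ?_, ?_⟩
  · intro i
    have := h1 ((σ ^ i.val) 1)
    have h3 : σ ((σ ^ i.val) 1) = (σ ^ (i.val + 1)) 1 := by rw [pow_succ' σ i.val]; rfl
    rw [h3] at this
    exact this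
  · intro i j hij
    simp only at hij
    rw [hprod _ (by omega), hprod _ (by omega)] at hij
    rcases lt_trichotomy i.val j.val with h | h | h
    · exact absurd hij (hne _ _ (by omega) (by omega))
    · exact Fin.ext h
    · exact absurd hij.symm (hne _ _ (by omega) (by omega))
  · have := hprod p le_rfl
    rw [hp1] at this
    have h3 : (List.ofFn a).take p = List.ofFn a := by
      apply List.take_of_length_le
      rw [List.length_ofFn]
    rwa [h3] at this

lemma HasClosedListing.mono {G : Type*} [Group G] {A B : Set G} (hBA : B ⊆ A)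
    (h : HasClosedListing B) : HasClosedListing A := by
  obtain ⟨a, h1, h2⟩ := h
  exact ⟨a, fun i => hBA (h1 i), h2⟩

theorem two_normalising {G : Type*} [Group G] [Finite G] {B : Set G} (hB : IsSymmGen B)
    {x y : G} (hx : x ∈ B) (hy : y ∈ B) (hxy : x ≠ y) (hx1 : x ≠ 1) (hy1 : y ≠ 1)
    (hxn : Normalises x B) (hyn : Normalises y B) : HasClosedListing B :=
  listing_of_perm (Pool.Agent.X250.Ham.ham_of_two hB.symmetric hB.generates hx hy hxy hx1 hy1
    (fun a ha => (hxn a).1 ha) (fun a ha => (hyn a).1 ha))

theorem conj_closed {G : Type*} [Group G] [Finite G] {A : Set G} (hne : A.Nonempty)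
    (hA : IsSymmGen A) (hconj : ∀ a ∈ A, ∀ g : G, g⁻¹ * a * g ∈ A) : HasClosedListing A := by
  have hnorm : ∀ x, Normalises x A := by
    intro x a
    refine ⟨fun ha => hconj a ha x, fun ha => ?_⟩
    have h1 := hconj _ ha x⁻¹
    have h2 : x⁻¹⁻¹ * (x⁻¹ * a * x) * x⁻¹ = a := by group
    rwa [h2] at h1
  by_cases h : ∃ x ∈ A, ∃ y ∈ A, x ≠ y ∧ x ≠ 1 ∧ y ≠ 1
  · obtain ⟨x, hx, y, hy, hxy, hx1, hy1⟩ := h
    exact two_normalising hA hx hy hxy hx1 hy1 (hnorm x) (hnorm y)
  · push Not at h
    by_cases h1 : ∃ x ∈ A, x ≠ 1
    · obtain ⟨x, hx, hx1⟩ := h1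
      have hx2 : x⁻¹ = x := by
        by_contra hne'
        exact hx1 (inv_eq_one.1 (h x hx x⁻¹ (hA.symmetric x hx) (fun h => hne' h.symm) hx1))
      have hall : ∀ g : G, g = 1 ∨ g = x := by
        intro g
        have hg : g ∈ Subgroup.closure A := by rw [hA.generates]; trivial
        have hA' : ∀ a ∈ A, a = 1 ∨ a = x := by
          intro a ha
          by_cases hax : x = a
          · exact Or.inr hax.symm
          · exact Or.inl (h x hx a ha hax hx1)
        have step : ∀ g a : G, a ∈ A → (g = 1 ∨ g = x) → (g * a = 1 ∨ g * a = x) := by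
          intro g a ha hg
          rcases hA' a ha with rfl | rfl
          · rwa [mul_one]
          · rcases hg with rfl | rfl
            · exact Or.inr (one_mul _)
            · left
              have h3 : g * g = g * g⁻¹ := by rw [hx2]
              rw [h3, mul_inv_cancel]
        induction hg using Subgroup.closure_induction_right with
        | one => exact Or.inl rfl
        | mul_right g _ a ha ih => exact step g a ha ih
        | mul_inv_cancel g _ a ha ih => exact step g a⁻¹ (hA.symmetric a ha) ih
      refine listing_of_perm ⟨Equiv.mulRight x, ?_, ?_⟩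
      · intro g
        simpa using hx
      · have key : ∀ g : G, (Equiv.mulRight x : Perm G).SameCycle 1 g := by
          intro g
          rcases hall g with h3 | h3
          · rw [h3]
          · rw [h3]
            exact ⟨1, by rw [zpow_one]; simp⟩
        intro g g'
        exact (key g).symm.trans (key g')
    · push Not at h1
      have hall : ∀ g : G, g = 1 := by
        intro g
        have hg : g ∈ Subgroup.closure A := by rw [hA.generates]; trivial
        have h3 : Subgroup.closure A ≤ ⊥ := by
          rw [Subgroup.closure_le]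
          intro a ha
          exact h1 a ha
        exact Subgroup.mem_bot.1 (h3 hg)
      obtain ⟨a, ha⟩ := hne
      refine listing_of_perm ⟨1, ?_, ?_⟩
      · intro g
        have : g⁻¹ * (1 : Perm G) g = a := by rw [hall a, hall (g⁻¹ * (1 : Perm G) g)]
        rw [this]
        exact ha
      · intro g g'
        rw [hall g, hall g']

/-- Let `G` be a finite group.

(1) If `B ⊆ A` is a symmetric generating set and two different elements `≠ 1` of `B` normalise `B`,
then there is a listing sequence in `A` with product `1`.

(2) If `A` is a nonempty symmetric generating set closed under conjugation, then there is a listing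
sequence in `A` with product `1`. -/
theorem result {G : Type*} [Group G] [Finite G] :
    (∀ A B : Set G, B ⊆ A → IsSymmGen B →
      (∃ x ∈ B, ∃ y ∈ B, x ≠ y ∧ x ≠ 1 ∧ y ≠ 1 ∧ Normalises x B ∧ Normalises y B) →
      HasClosedListing A) ∧
    (∀ A : Set G, A.Nonempty → IsSymmGen A → (∀ a ∈ A, ∀ g : G, g⁻¹ * a * g ∈ A) →
      HasClosedListing A) := by
  refine ⟨?_, fun A h1 h2 h3 => conj_closed h1 h2 h3⟩
  rintro A B hBA hB ⟨x, hx, y, hy, hxy, hx1, hy1, hxn, hyn⟩
  exact (two_normalising hB hx hy hxy hx1 hy1 hxn hyn).mono hBA

end Pool.Agent.Results.MP_688fd0_co.NormalisingPair
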