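import Mathlib
import Pool.Agent.X267.Ham.Large
import Pool.Agent.X267.Ham.Seq
import Pool.Agent.Results.MP_688fd0_co.NormalisingPair

/-!
# Listing sequences when the generating set contains a subgroup of order more than `√(5|G|)`

Let `A` be a symmetric generating set of the finite group `G`, and `H` a subgroup with
`H ∖ {1} ⊆ A`.

1. If `|H ∩ a H a⁻¹| ≥ 6` for all `a ∈ A ∖ H` then `A` has a listing sequence with product `1`
   (a Hamiltonian cycle).
2. This is so if `|H|² > 5 |G|`.
3. Let `N` be a normal subgroup generated by `A ∩ N`, with `H ≤ N` and `|H|² > 5 |N|`. If the image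
   of `A` in `G/N` has a listing sequence then so does `A`; in particular if this image is closed
   under conjugation.

The proof: the cosets of `H` are cliques; the coset graph is vertex transitive, so it has a connected
spanning subgraph of maximal degree at most three; along a spanning tree of it one can choose
disjoint pairs of parallel edges.
-/

namespace Pool.Agent.Results.MP_688fd0_co.LargeSubgroup

/-- The sequence `a_1, ..., a_n` (here `a 0, ..., a (n-1)`) is *listing*: the partial products
`a_1 ⋯ a_k`, `1 ≤ k ≤ n`, are pairwise distinct. -/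
def IsListing {G : Type*} [Group G] {n : ℕ} (a : Fin n → G) : Prop :=
  Function.Injective (fun k : Fin n => ((List.ofFn a).take (k.val + 1)).prod)

/-- There is a listing sequence `a_1, ..., a_n` (`n = |G|`) of elements of `A`. -/
def HasListing {G : Type*} [Group G] (A : Set G) : Prop :=
  ∃ a : Fin (Nat.card G) → G, (∀ i, a i ∈ A) ∧ IsListing a

/-- There is a listing sequence `a_1, ..., a_n` (`n = |G|`) of elements of `A` with
`a_1 ⋯ a_n = 1`. -/
def HasClosedListing {G : Type*} [Group G] (A : Set G) : Prop :=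
  ∃ a : Fin (Nat.card G) → G, (∀ i, a i ∈ A) ∧ IsListing a ∧ (List.ofFn a).prod = 1

/-- `A` is a symmetric generating set. -/
structure IsSymmGen {G : Type*} [Group G] (A : Set G) : Prop where
  symmetric : ∀ x ∈ A, x⁻¹ ∈ A
  generates : Subgroup.closure A = ⊤

open Pool.Agent.X267.Ham (closed_of_cycle listing_of_perm lift_listing large_cycle)

lemma six_of_large {G : Type*} [Group G] [Finite G] (H : Subgroup G)
    (h : 5 * Nat.card G < Nat.card H ^ 2) (a : G) :
    6 ≤ {h : G | h ∈ H ∧ a⁻¹ * h * a ∈ H}.ncard := by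
  classical
  by_contra hcon
  have h5 : {h : G | h ∈ H ∧ a⁻¹ * h * a ∈ H}.ncard ≤ 5 := by omega
  have hf : (H : Set G).Finite := Set.toFinite _
  have h1 := Finset.card_le_mul_card_image (f := fun x : G => ((x * a : G) : G ⧸ H))
    hf.toFinset 5 (by
      intro q hq
      obtain ⟨x, hx, rfl⟩ := Finset.mem_image.1 hq
      rw [Set.Finite.mem_toFinset] at hx
      refine le_trans ?_ h5
      rw [← Set.ncard_coe_finset]
      apply Set.ncard_le_ncard_of_injOn (fun y => x⁻¹ * y)
      · intro y hy
        simp only [Finset.coe_filter, Set.Finite.mem_toFinset, Set.mem_ofPred_eq] at hy ⊢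
        refine ⟨H.mul_mem (H.inv_mem hx) hy.1, ?_⟩
        have h2 := QuotientGroup.eq.1 hy.2.symm
        have h3 : a⁻¹ * (x⁻¹ * y) * a = (x * a)⁻¹ * (y * a) := by group
        rw [h3]
        exact h2
      · intro y _ z _ hyz
        exact mul_left_cancel hyz)
  have h2 : (hf.toFinset.image (fun x : G => ((x * a : G) : G ⧸ H))).card ≤ Nat.card (G ⧸ H) := by
    rw [← Set.ncard_coe_finset, ← Set.ncard_univ]
    exact Set.ncard_le_ncard (Set.subset_univ _) (Set.toFinite _)
  have h3 : hf.toFinset.card = Nat.card H := by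
    rw [← Set.ncard_eq_toFinset_card _ hf]; rfl
  have h4 : Nat.card G = Nat.card (G ⧸ H) * Nat.card H := H.card_eq_card_quotient_mul_card_subgroup
  rw [h3] at h1
  have h6 : Nat.card H ≤ 5 * Nat.card (G ⧸ H) := h1.trans (Nat.mul_le_mul_left _ h2)
  rw [h4] at h
  nlinarith

lemma closed_large {G : Type*} [Group G] [Finite G] {A : Set G} (hne : A.Nonempty)
    (hA : ∀ x ∈ A, x⁻¹ ∈ A) (hgen : Subgroup.closure A = ⊤) (H : Subgroup G)
    (hHA : ∀ x ∈ H, x ≠ 1 → x ∈ A)
    (h6 : ∀ a ∈ A, a ∉ H → 6 ≤ {h : G | h ∈ H ∧ a⁻¹ * h * a ∈ H}.ncard) :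
    Pool.Agent.X267.Ham.HasClosedListing A := by
  rcases subsingleton_or_nontrivial G with hG | hG
  · exact closed_of_cycle (ι := Unit) hne (fun _ => ⊤)
      (fun _ x _ hx => absurd (Subsingleton.elim x 1) hx)
      ⟨1, fun x y => by rw [Subsingleton.elim x y], fun g => ⟨(), trivial⟩⟩
  · exact listing_of_perm (large_cycle hA hgen hHA h6)

/-- **Generating sets containing one large subgroup.** -/
theorem result {G : Type*} [Group G] [Finite G] (A : Set G) (hne : A.Nonempty) (hA : IsSymmGen A)
    (H : Subgroup G) (hHA : ∀ x ∈ H, x ≠ 1 → x ∈ A) :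
    ((∀ a ∈ A, a ∉ H → 6 ≤ {h : G | h ∈ H ∧ a⁻¹ * h * a ∈ H}.ncard) → HasClosedListing A) ∧
    (5 * Nat.card G < Nat.card H ^ 2 → HasClosedListing A) ∧
    (∀ N : Subgroup G, ∀ _ : N.Normal, H ≤ N → Subgroup.closure (A ∩ N) = N →
      5 * Nat.card N < Nat.card H ^ 2 →
      (HasListing ((QuotientGroup.mk' N) '' A) → HasListing A) ∧
      ((∀ a ∈ A, ∀ g : G, ∃ a' ∈ A, (g⁻¹ * a * g)⁻¹ * a' ∈ N) → HasListing A)) := by
  refine ⟨fun h6 => closed_large hne hA.symmetric hA.generates H hHA h6,
    fun h => closed_large hne hA.symmetric hA.generates H hHA (fun a _ _ => six_of_large H h a),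
    fun N hnor hHN hgenN hcard => ?_⟩
  have hlift : HasListing ((QuotientGroup.mk' N) '' A) → HasListing A := by
    intro hQ
    have hc : Nat.card (H.subgroupOf N) = Nat.card H :=
      Nat.card_congr (Subgroup.subgroupOfEquivOfLe hHN).toEquiv
    have himg : (N.subtype '' {x : N | (x : G) ∈ A}) = A ∩ N := by
      ext x
      constructor
      · rintro ⟨y, hy, rfl⟩
        exact ⟨hy, y.2⟩
      · rintro ⟨hx, hxN⟩
        exact ⟨⟨x, hxN⟩, hx, rfl⟩
    have hgen : Subgroup.closure {x : N | (x : G) ∈ A} = ⊤ := by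
      apply Subgroup.map_injective N.subtype_injective
      rw [MonoidHom.map_closure, himg, hgenN, ← MonoidHom.range_eq_map, Subgroup.range_subtype]
    have hne' : ({x : N | (x : G) ∈ A} : Set N).Nonempty := by
      have h1 : 1 < Nat.card H := by
        by_contra hcon
        have h2 : Nat.card H ^ 2 ≤ 1 := by
          have : Nat.card H ≤ 1 := by omega
          calc Nat.card H ^ 2 ≤ 1 ^ 2 := Nat.pow_le_pow_left this 2
            _ = 1 := by norm_num
        have h3 : 0 < Nat.card N := Nat.card_pos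
        omega
      have := Finite.one_lt_card_iff_nontrivial.1 h1
      obtain ⟨x, hx⟩ := exists_ne (1 : H)
      exact ⟨⟨x, hHN x.2⟩, hHA x x.2 (fun h => hx (Subtype.ext h))⟩
    refine lift_listing N (closed_large hne' (fun x hx => hA.symmetric _ hx) hgen
      (H.subgroupOf N) ?_ (fun a _ _ => six_of_large _ (by rw [hc]; exact hcard) a)) hQ
    intro x hx hx1
    exact hHA x (Subgroup.mem_subgroupOf.1 hx) (fun h => hx1 (Subtype.ext h))
  refine ⟨hlift, fun h => hlift ?_⟩
  have hgen : Subgroup.closure ((QuotientGroup.mk' N) '' A) = ⊤ := by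
    rw [← MonoidHom.map_closure, hA.generates, ← MonoidHom.range_eq_map]
    exact QuotientGroup.range_mk' N
  obtain ⟨a, h1, h2, _⟩ := NormalisingPair.conj_closed (hne.image (QuotientGroup.mk' N))
    ⟨by
      rintro _ ⟨x, hx, rfl⟩
      exact ⟨x⁻¹, hA.symmetric x hx, map_inv _ _⟩, hgen⟩
    (by
      rintro _ ⟨x, hx, rfl⟩ g
      obtain ⟨g, rfl⟩ := QuotientGroup.mk'_surjective N g
      obtain ⟨a', ha', hN'⟩ := h x hx g
      refine ⟨a', ha', ?_⟩
      rw [← map_inv, ← map_mul, ← map_mul]
      exact (QuotientGroup.eq.2 hN').symm)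
  exact ⟨a, h1, h2⟩

end Pool.Agent.Results.MP_688fd0_co.LargeSubgroup
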