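import Mathlib
import Pool.Agent.X267.Ham.Two
import Pool.Agent.X267.Ham.Seq
import Pool.Agent.Results.MP_688fd0_co.NormalisingPair

/-!
# Listing sequences when the generating set contains two subgroups

Let `A` be a symmetric generating set of the finite group `G`, and let `H`, `K` be nontrivial
subgroups with `(H ∪ K) ∖ {1} ⊆ A` such that the pair of orders `{|H|, |K|}` is none of
`{2,3}, {3,3}, {3,4}, {3,5}`. Let `N` be the subgroup generated by `H` and `K`.

1. If `N = G` then `A` has a listing sequence with product `1` (a Hamiltonian cycle).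
2. If `N` is normal and the image of `A` in `G/N` has a listing sequence then so does `A`.
3. So `A` has a listing sequence if `N` is normal and the image of `A` in `G/N` is closed under
   conjugation, for instance if `G/N` is abelian.
-/

namespace Pool.Agent.Results.MP_688fd0_co.TwoSubgroups

/-- The sequence `a_1, ..., a_n` (here `a 0, ..., a (n-1)`) is *listing*: the partial products
`a_1 ⋯ a_k`, `1 ≤ k ≤ n`, are pairwise distinct. -/
def IsListing {G : Type*} [Group G] {n : ℕ} (a : Fin n → G) : Prop :=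
  Function.Injective (fun k : Fin n => ((List.ofFn a).take (k.val + 1)).prod)

/-- There is a listing sequence `a_1, ..., a_n` (`n = |G|`) of elements of `A`. -/
def HasListing {G : Type*} [Group G] (A : Set G) : Prop :=
  ∃ a : Fin (Nat.card G) → G, (∀ i, a i ∈ A) ∧ IsListing a

/-- There is a listing sequence `a_1, ..., a_n` (`n = |G|`) of elements of `A` with
`a_1 ⋯ a_n = 1`. -/
def HasClosedListing {G : Type*} [Group G] (A : Set G) : Prop :=
  ∃ a : Fin (Nat.card G) → G, (∀ i, a i ∈ A) ∧ IsListing a ∧ (List.ofFn a).prod = 1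

/-- `A` is a symmetric generating set. -/
structure IsSymmGen {G : Type*} [Group G] (A : Set G) : Prop where
  symmetric : ∀ x ∈ A, x⁻¹ ∈ A
  generates : Subgroup.closure A = ⊤

/-- The pair of orders is one of the four exceptional ones. -/
def Exceptional (h k : ℕ) : Prop :=
  (h = 3 ∧ (k = 2 ∨ k = 3 ∨ k = 4 ∨ k = 5)) ∨ (k = 3 ∧ (h = 2 ∨ h = 3 ∨ h = 4 ∨ h = 5))

open Pool.Agent.X267.Ham (closed_of_cycle union_tour lift_listing even_tour invol_tour)
open Equiv Equiv.Perm

lemma cycle_two {G : Type} [Group G] [Finite G] (H K : Subgroup G) (hgen : H ⊔ K = ⊤)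
    (hH : 2 ≤ Nat.card H) (hK : 2 ≤ Nat.card K) (hex : ¬ Exceptional (Nat.card H) (Nat.card K)) :
    ∃ σ : Perm G, (∀ x y, σ.SameCycle x y) ∧ ∀ g, g⁻¹ * σ g ∈ H ∨ g⁻¹ * σ g ∈ K := by
  classical
  have := Fintype.ofFinite G
  unfold Exceptional at hex
  rcases Nat.lt_or_ge (Nat.card K) 3 with hK3 | hK3
  · have hK2 : Nat.card K = 2 := by omega
    rcases Nat.lt_or_ge (Nat.card H) 4 with hH4 | hH4
    · have hH2 : Nat.card H = 2 := by omega
      exact even_tour H K hgen (by rw [hH2]; exact ⟨1, rfl⟩) (by rw [hK2]; exact ⟨1, rfl⟩)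
    · exact invol_tour H K hgen hH4 hK2
  · rcases Nat.lt_or_ge (Nat.card H) 3 with hH3 | hH3
    · have hH2 : Nat.card H = 2 := by omega
      obtain ⟨σ, h1, h2⟩ := invol_tour K H (by rw [sup_comm]; exact hgen) (by omega) hH2
      exact ⟨σ, h1, fun g => (h2 g).symm⟩
    · -- both orders are at least three: count
      have h1 := H.index_mul_card
      have h2 := K.index_mul_card
      rw [Nat.card_eq_fintype_card (α := G)] at h1 h2
      have h3 : 2 * (Nat.card H + Nat.card K) ≤ Nat.card H * Nat.card K := by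
        rcases Nat.lt_or_ge (Nat.card H) 4 with hH4 | hH4
        · have : Nat.card H = 3 := by omega
          rw [this]; omega
        · rcases Nat.lt_or_ge (Nat.card K) 4 with hK4 | hK4
          · have : Nat.card K = 3 := by omega
            rw [this]; omega
          · nlinarith
      have h4 : 2 * (H.index + K.index) ≤ Fintype.card G := by
        have hpos : 0 < Nat.card H * Nat.card K := Nat.mul_pos (by omega) (by omega)
        have h5 : (2 * (H.index + K.index)) * (Nat.card H * Nat.card K) ≤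
            Fintype.card G * (Nat.card H * Nat.card K) := by
          calc (2 * (H.index + K.index)) * (Nat.card H * Nat.card K)
              = 2 * ((H.index * Nat.card H) * Nat.card K + (K.index * Nat.card K) * Nat.card H) := by
                ring
            _ = Fintype.card G * (2 * (Nat.card H + Nat.card K)) := by rw [h1, h2]; ring
            _ ≤ _ := Nat.mul_le_mul_left _ h3
        exact Nat.le_of_mul_le_mul_right h5 hpos
      obtain ⟨σ, h5, h6⟩ := union_tour (m := 1) ![H, K] (by
        apply le_antisymm le_top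
        rw [← hgen]
        exact sup_le (le_iSup (![H, K] : Fin 2 → Subgroup G) 0)
          (le_iSup (![H, K] : Fin 2 → Subgroup G) 1)) (by
        rw [Fin.sum_univ_two]
        show 2 * (H.index + K.index) ≤ _
        omega)
      refine ⟨σ, h5, fun g => ?_⟩
      obtain ⟨i, hi⟩ := h6 g
      fin_cases i
      · exact Or.inl hi
      · exact Or.inr hi

lemma closed_two {G : Type} [Group G] [Finite G] (H K : Subgroup G) (hgen : H ⊔ K = ⊤)
    (hH : 2 ≤ Nat.card H) (hK : 2 ≤ Nat.card K) (hex : ¬ Exceptional (Nat.card H) (Nat.card K))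
    {A : Set G} (hHA : ∀ x ∈ H, x ≠ 1 → x ∈ A) (hKA : ∀ x ∈ K, x ≠ 1 → x ∈ A) :
    Pool.Agent.X267.Ham.HasClosedListing A := by
  have hnt : Nontrivial H := by
    rw [← Finite.one_lt_card_iff_nontrivial]
    omega
  obtain ⟨x, hx⟩ := exists_ne (1 : H)
  refine closed_of_cycle (ι := Bool) ⟨(x : G), hHA x x.2 (fun h => hx (Subtype.ext h))⟩
    (fun b => if b then H else K) ?_ ?_
  · intro b
    cases b
    · exact hKA
    · exact hHA
  · obtain ⟨σ, h1, h2⟩ := cycle_two H K hgen hH hK hex
    refine ⟨σ, h1, fun g => ?_⟩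
    rcases h2 g with h | h
    · exact ⟨true, h⟩
    · exact ⟨false, h⟩

/-- **Generating sets containing two subgroups.** -/
theorem result {G : Type} [Group G] [Finite G] (A : Set G) (hA : IsSymmGen A)
    (H K : Subgroup G) (hHA : ∀ x ∈ H, x ≠ 1 → x ∈ A) (hKA : ∀ x ∈ K, x ≠ 1 → x ∈ A)
    (hH : H ≠ ⊥) (hK : K ≠ ⊥) (hex : ¬ Exceptional (Nat.card H) (Nat.card K))
    (N : Subgroup G) (hN : H ⊔ K = N) :
    (N = ⊤ → HasClosedListing A) ∧
    (∀ _ : N.Normal, HasListing ((QuotientGroup.mk' N) '' A) → HasListing A) ∧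
    (∀ _ : N.Normal, (∀ a ∈ A, ∀ g : G, ∃ a' ∈ A, (g⁻¹ * a * g)⁻¹ * a' ∈ N) → HasListing A) ∧
    (∀ _ : N.Normal, (∀ x y : G, x⁻¹ * y⁻¹ * x * y ∈ N) → HasListing A) := by
  have hH2 : 2 ≤ Nat.card H := by
    have := (Subgroup.nontrivial_iff_ne_bot H).2 hH
    exact Finite.one_lt_card
  have hK2 : 2 ≤ Nat.card K := by
    have := (Subgroup.nontrivial_iff_ne_bot K).2 hK
    exact Finite.one_lt_card
  have hne : A.Nonempty := by
    obtain ⟨x, hx1⟩ := (Subgroup.ne_bot_iff_exists_ne_one.1 hH)
    exact ⟨_, hHA _ x.2 (fun h => hx1 (Subtype.ext h))⟩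
  have hlift : ∀ _ : N.Normal, HasListing ((QuotientGroup.mk' N) '' A) → HasListing A := by
    intro hnor hQ
    have hHN : H ≤ N := hN ▸ le_sup_left
    have hKN : K ≤ N := hN ▸ le_sup_right
    have hgen : H.subgroupOf N ⊔ K.subgroupOf N = ⊤ := by
      apply Subgroup.map_injective N.subtype_injective
      rw [Subgroup.map_sup, Subgroup.map_subgroupOf_eq_of_le hHN,
        Subgroup.map_subgroupOf_eq_of_le hKN, hN, ← MonoidHom.range_eq_map, Subgroup.range_subtype]
    have hcH : Nat.card (H.subgroupOf N) = Nat.card H :=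
      Nat.card_congr (Subgroup.subgroupOfEquivOfLe hHN).toEquiv
    have hcK : Nat.card (K.subgroupOf N) = Nat.card K :=
      Nat.card_congr (Subgroup.subgroupOfEquivOfLe hKN).toEquiv
    have hcl : Pool.Agent.X267.Ham.HasClosedListing {x : N | (x : G) ∈ A} := by
      refine closed_two (H.subgroupOf N) (K.subgroupOf N) hgen (by rw [hcH]; exact hH2)
        (by rw [hcK]; exact hK2) (by rw [hcH, hcK]; exact hex) ?_ ?_
      · intro x hx hx1
        exact hHA x (Subgroup.mem_subgroupOf.1 hx) (fun h => hx1 (Subtype.ext h))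
      · intro x hx hx1
        exact hKA x (Subgroup.mem_subgroupOf.1 hx) (fun h => hx1 (Subtype.ext h))
    exact lift_listing N hcl hQ
  have hconj : ∀ _ : N.Normal, (∀ a ∈ A, ∀ g : G, ∃ a' ∈ A, (g⁻¹ * a * g)⁻¹ * a' ∈ N) →
      HasListing A := by
    intro hnor h
    refine hlift hnor ?_
    have hgen : Subgroup.closure ((QuotientGroup.mk' N) '' A) = ⊤ := by
      rw [← MonoidHom.map_closure, hA.generates, ← MonoidHom.range_eq_map]
      exact QuotientGroup.range_mk' N
    obtain ⟨a, h1, h2, _⟩ := NormalisingPair.conj_closed (hne.image (QuotientGroup.mk' N))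
      ⟨by
        rintro _ ⟨x, hx, rfl⟩
        exact ⟨x⁻¹, hA.symmetric x hx, map_inv _ _⟩, hgen⟩
      (by
        rintro _ ⟨x, hx, rfl⟩ g
        obtain ⟨g, rfl⟩ := QuotientGroup.mk'_surjective N g
        obtain ⟨a', ha', hN'⟩ := h x hx g
        refine ⟨a', ha', ?_⟩
        rw [← map_inv, ← map_mul, ← map_mul]
        exact (QuotientGroup.eq.2 hN').symm)
    exact ⟨a, h1, h2⟩
  refine ⟨?_, hlift, hconj, ?_⟩
  · intro hNt
    exact closed_two H K (hN.trans hNt) hH2 hK2 hex hHA hKA
  · intro hnor hcomm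
    refine hconj hnor (fun a ha g => ⟨a, ha, ?_⟩)
    have h1 := hcomm g a
    have h2 : (g⁻¹ * a * g)⁻¹ * a = (g⁻¹ * a⁻¹ * g * a) := by group
    rw [h2]
    exact h1

end Pool.Agent.Results.MP_688fd0_co.TwoSubgroups
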