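import Mathlib
import Pool.Agent.X267.Ham.Union
import Pool.Agent.X267.Ham.Seq
import Pool.Agent.Results.MP_688fd0_co.NormalisingPair

/-!
# Listing sequences when the generating set contains large subgroups

Let `A` be a symmetric generating set of the finite group `G` and let `H_0, ..., H_m` be subgroups
with `H_i ∖ {1} ⊆ A`, generating the subgroup `N`, such that

  `∑ 1 / |H_i| ≤ 1/2 + 1/|N|`.

1. If `N = G` then `A` has a listing sequence with product `1` (a Hamiltonian cycle).
2. If `N` is normal and the image of `A` in `G/N` has a listing sequence then so does `A`.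
3. So `A` has a listing sequence if `N` is normal and the image of `A` in `G/N` is closed under
   conjugation, for instance if `G/N` is abelian.

The proof. The elements of `G` are the edges of graphs whose vertices are left cosets. As `G` acts
transitively on the edges, averaging over the translates of one base shows that two disjoint bases
exist (matroid union); they give a connected subset which meets all cosets in an even number of
elements; an Eulerian tour of it is extended to a Hamiltonian cycle.
-/

namespace Pool.Agent.Results.MP_688fd0_co.UnionOfSubgroups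

/-- The sequence `a_1, ..., a_n` (here `a 0, ..., a (n-1)`) is *listing*: the partial products
`a_1 ⋯ a_k`, `1 ≤ k ≤ n`, are pairwise distinct. -/
def IsListing {G : Type*} [Group G] {n : ℕ} (a : Fin n → G) : Prop :=
  Function.Injective (fun k : Fin n => ((List.ofFn a).take (k.val + 1)).prod)

/-- There is a listing sequence `a_1, ..., a_n` (`n = |G|`) of elements of `A`. -/
def HasListing {G : Type*} [Group G] (A : Set G) : Prop :=
  ∃ a : Fin (Nat.card G) → G, (∀ i, a i ∈ A) ∧ IsListing a

/-- There is a listing sequence `a_1, ..., a_n` (`n = |G|`) of elements of `A` with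
`a_1 ⋯ a_n = 1`. -/
def HasClosedListing {G : Type*} [Group G] (A : Set G) : Prop :=
  ∃ a : Fin (Nat.card G) → G, (∀ i, a i ∈ A) ∧ IsListing a ∧ (List.ofFn a).prod = 1

/-- `A` is a symmetric generating set. -/
structure IsSymmGen {G : Type*} [Group G] (A : Set G) : Prop where
  symmetric : ∀ x ∈ A, x⁻¹ ∈ A
  generates : Subgroup.closure A = ⊤

open Pool.Agent.X267.Ham (closed_of_cycle union_tour lift_listing)

lemma sum_index {G : Type} [Group G] [Fintype G] {m : ℕ} (H : Fin (m + 1) → Subgroup G)
    (h : ∑ i, (1 : ℚ) / Nat.card (H i) ≤ 1 / 2 + 1 / Nat.card G) :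
    2 * ∑ i, (H i).index ≤ Fintype.card G + 2 := by
  have hG : (0 : ℚ) < Nat.card G := by exact_mod_cast Nat.card_pos
  have h1 : ∀ i, ((H i).index : ℚ) = Nat.card G * (1 / Nat.card (H i)) := by
    intro i
    have h2 : (0 : ℚ) < Nat.card (H i) := by exact_mod_cast Nat.card_pos
    have h3 := (H i).index_mul_card
    rw [mul_one_div, eq_div_iff h2.ne']
    exact_mod_cast h3
  have h2 : ((2 * ∑ i, (H i).index : ℕ) : ℚ) ≤ ((Fintype.card G + 2 : ℕ) : ℚ) := by
    push_cast
    rw [Finset.sum_congr rfl (fun i _ => h1 i), ← Finset.mul_sum, ← Nat.card_eq_fintype_card]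
    have h3 := mul_le_mul_of_nonneg_left h hG.le
    have h4 : (Nat.card G : ℚ) * (1 / 2 + 1 / Nat.card G) = Nat.card G / 2 + 1 := by
      field_simp
    rw [h4] at h3
    linarith
  exact_mod_cast h2

lemma closed_union {G : Type} [Group G] [Finite G] {m : ℕ} (H : Fin (m + 1) → Subgroup G)
    (hgen : ⨆ i, H i = ⊤) (h : ∑ i, (1 : ℚ) / Nat.card (H i) ≤ 1 / 2 + 1 / Nat.card G)
    {A : Set G} (hne : A.Nonempty) (hHA : ∀ i, ∀ x ∈ H i, x ≠ 1 → x ∈ A) :
    Pool.Agent.X267.Ham.HasClosedListing A := by
  classical
  have := Fintype.ofFinite G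
  exact closed_of_cycle hne H hHA (union_tour H hgen (sum_index H h))

/-- **Generating sets containing large subgroups.** -/
theorem result {G : Type} [Group G] [Finite G] (A : Set G) (hne : A.Nonempty) (hA : IsSymmGen A)
    {m : ℕ} (H : Fin (m + 1) → Subgroup G) (hHA : ∀ i, ∀ x ∈ H i, x ≠ 1 → x ∈ A)
    (N : Subgroup G) (hN : ⨆ i, H i = N)
    (hsum : ∑ i, (1 : ℚ) / Nat.card (H i) ≤ 1 / 2 + 1 / Nat.card N) :
    (N = ⊤ → HasClosedListing A) ∧
    (∀ _ : N.Normal, HasListing ((QuotientGroup.mk' N) '' A) → HasListing A) ∧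
    (∀ _ : N.Normal, (∀ a ∈ A, ∀ g : G, ∃ a' ∈ A, (g⁻¹ * a * g)⁻¹ * a' ∈ N) → HasListing A) ∧
    (∀ _ : N.Normal, (∀ x y : G, x⁻¹ * y⁻¹ * x * y ∈ N) → HasListing A) := by
  have hlift : ∀ _ : N.Normal, HasListing ((QuotientGroup.mk' N) '' A) → HasListing A := by
    intro hnor hQ
    by_cases hNb : N = ⊥
    · -- then `A` itself is a copy of its image
      subst hNb
      have hcl : Pool.Agent.X267.Ham.HasClosedListing {x : (⊥ : Subgroup G) | (x : G) ∈ A ∪ {1}} := by
        refine closed_of_cycle (ι := Unit) ⟨1, Or.inr rfl⟩ (fun _ => ⊤) (fun _ x _ hx => ?_)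
          ⟨1, fun x y => ?_, fun g => ⟨(), trivial⟩⟩
        · exact absurd (Subsingleton.elim x 1) hx
        · rw [Subsingleton.elim x y]
      obtain ⟨a, h1, h2⟩ := hQ
      have hex : ∀ i, ∃ g ∈ A, QuotientGroup.mk' (⊥ : Subgroup G) g = a i := fun i => h1 i
      choose c hc1 hc2 using hex
      let e : G ≃* G ⧸ (⊥ : Subgroup G) := (QuotientGroup.quotientBot).symm
      have he : ∀ g, e g = QuotientGroup.mk' (⊥ : Subgroup G) g := by
        intro g
        rw [MulEquiv.symm_apply_eq]
        rfl
      have hcard : Nat.card G = Nat.card (G ⧸ (⊥ : Subgroup G)) := Nat.card_congr e.toEquiv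
      unfold HasListing
      rw [hcard]
      refine ⟨c, hc1, ?_⟩
      intro i j hij
      apply h2
      have h3 : ∀ m, QuotientGroup.mk' (⊥ : Subgroup G) (((List.ofFn c).take m).prod) =
          ((List.ofFn a).take m).prod := by
        intro m
        rw [map_list_prod, List.map_take, List.map_ofFn]
        congr 3
        funext i
        exact hc2 i
      show ((List.ofFn a).take (i.val + 1)).prod = ((List.ofFn a).take (j.val + 1)).prod
      rw [← h3, ← h3]
      exact congrArg _ hij
    · have := hnor
      have hNt : Nontrivial N := (Subgroup.nontrivial_iff_ne_bot N).2 hNb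
      have hHN : ∀ i, H i ≤ N := fun i => hN ▸ le_iSup H i
      have hgen : ⨆ i, (H i).subgroupOf N = ⊤ := by
        apply Subgroup.map_injective N.subtype_injective
        rw [Subgroup.map_iSup]
        have h1 : ∀ i, ((H i).subgroupOf N).map N.subtype = H i :=
          fun i => Subgroup.map_subgroupOf_eq_of_le (hHN i)
        rw [iSup_congr h1, hN, ← MonoidHom.range_eq_map, Subgroup.range_subtype]
      have hcardH : ∀ i, Nat.card ((H i).subgroupOf N) = Nat.card (H i) := fun i =>
        Nat.card_congr (Subgroup.subgroupOfEquivOfLe (hHN i)).toEquiv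
      have hsum' : ∑ i, (1 : ℚ) / Nat.card ((H i).subgroupOf N) ≤ 1 / 2 + 1 / Nat.card N := by
        rw [Finset.sum_congr rfl (fun i _ => by rw [hcardH i])]
        exact hsum
      have hHA' : ∀ i, ∀ x ∈ (H i).subgroupOf N, x ≠ 1 → x ∈ {x : N | (x : G) ∈ A} := by
        intro i x hx hx1
        refine hHA i x (Subgroup.mem_subgroupOf.1 hx) ?_
        intro h
        exact hx1 (Subtype.ext h)
      have hne' : ({x : N | (x : G) ∈ A} : Set N).Nonempty := by
        by_contra hcon
        rw [Set.not_nonempty_iff_eq_empty] at hcon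
        have h1 : ∀ i, (H i).subgroupOf N ≤ ⊥ := by
          intro i x hx
          rw [Subgroup.mem_bot]
          by_contra hx1
          have := hHA' i x hx hx1
          rw [hcon] at this
          exact this
        have h2 : (⊤ : Subgroup N) ≤ ⊥ := by
          rw [← hgen]
          exact iSup_le h1
        exact top_ne_bot (le_bot_iff.1 h2)
      exact lift_listing N (closed_union _ hgen hsum' hne' hHA') hQ
  have hconj : ∀ _ : N.Normal, (∀ a ∈ A, ∀ g : G, ∃ a' ∈ A, (g⁻¹ * a * g)⁻¹ * a' ∈ N) →
      HasListing A := by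
    intro hnor h
    refine hlift hnor ?_
    have hgen : Subgroup.closure ((QuotientGroup.mk' N) '' A) = ⊤ := by
      rw [← MonoidHom.map_closure, hA.generates, ← MonoidHom.range_eq_map]
      exact QuotientGroup.range_mk' N
    obtain ⟨a, h1, h2, _⟩ := NormalisingPair.conj_closed (hne.image (QuotientGroup.mk' N))
      ⟨by
        rintro _ ⟨x, hx, rfl⟩
        exact ⟨x⁻¹, hA.symmetric x hx, map_inv _ _⟩, hgen⟩
      (by
        rintro _ ⟨x, hx, rfl⟩ g
        obtain ⟨g, rfl⟩ := QuotientGroup.mk'_surjective N g
        obtain ⟨a', ha', hN'⟩ := h x hx g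
        refine ⟨a', ha', ?_⟩
        rw [← map_inv, ← map_mul, ← map_mul]
        exact (QuotientGroup.eq.2 hN').symm)
    exact ⟨a, h1, h2⟩
  refine ⟨?_, hlift, hconj, ?_⟩
  · intro hNt
    subst hNt
    refine closed_union H hN ?_ hne hHA
    rw [← Subgroup.card_top (G := G)]
    exact hsum
  · intro hnor hcomm
    refine hconj hnor (fun a ha g => ⟨a, ha, ?_⟩)
    have h1 := hcomm g a
    have h2 : (g⁻¹ * a * g)⁻¹ * a = (g⁻¹ * a⁻¹ * g * a) := by group
    rw [h2]
    exact h1

end Pool.Agent.Results.MP_688fd0_co.UnionOfSubgroups
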